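import Pool.Agent.Q175.MD.Flow1

/-! MD-20: the second order criterion (helper175 for project MD of helper82). -/

set_option autoImplicit false

open MeasureTheory Set Filter Topology
open Pool.Agent.W779.Morrey

namespace Pool.Agent.Q175.MD

open Pool.Agent.Q82.MD

/-- the matrix entry -/
noncomputable def pr (r l : Fin 2) : E →L[ℝ] ℝ :=
  (ContinuousLinearMap.proj (R := ℝ) (φ := fun _ : Fin 2 => ℝ) l).comp
    (ContinuousLinearMap.proj (R := ℝ) (φ := fun _ : Fin 2 => V) r)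

lemma pr_apply (r l : Fin 2) (F : E) : pr r l F = F r l := rfl

/-- the form `2 η ⟨F, G⟩` -/
noncomputable def Dn (η : ℝ) : E →L[ℝ] E →L[ℝ] ℝ :=
  (2 * η) • ((pr 0 0).smulRight (pr 0 0) + (pr 0 1).smulRight (pr 0 1)
    + (pr 1 0).smulRight (pr 1 0) + (pr 1 1).smulRight (pr 1 1))

lemma Dn_apply (η : ℝ) (F G : E) : Dn η F G
    = 2 * η * (F 0 0 * G 0 0 + F 0 1 * G 0 1 + F 1 0 * G 1 0 + F 1 1 * G 1 1) := by
  simp [Dn, pr_apply]
  ring

lemma hasFDerivAt_nn (η : ℝ) (F : E) : HasFDerivAt (fun F => η * nn F) (Dn η F) F := by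
  have h : ∀ r l, HasFDerivAt (fun F : E => F r l) (pr r l) F := fun r l => (pr r l).hasFDerivAt
  have h2 := ((((h 0 0).pow 2).add ((h 0 1).pow 2)).add ((h 1 0).pow 2)).add ((h 1 1).pow 2)
  refine (h2.const_mul η).congr_fderiv ?_
  ext G
  rw [Dn_apply]
  simp [pr_apply]
  ring

lemma nn_smooth (η : ℝ) : ContDiff ℝ 2 (fun F : E => η * nn F) := by
  unfold nn
  have h : ∀ r l, ContDiff ℝ 2 (fun F : E => F r l) := fun r l => (pr r l).contDiff
  exact contDiff_const.mul (((((h 0 0).pow 2).add ((h 0 1).pow 2)).add ((h 1 0).pow 2)).add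
    ((h 1 1).pow 2))

lemma hs_add_nn {W : E → ℝ} (hW : ContDiff ℝ 2 W) (η : ℝ) (F X : E) :
    hs (fun F => W F + η * nn F) F X X = hs W F X X + 2 * η * nn X := by
  unfold hs
  have h1 : fderiv ℝ (fun F => W F + η * nn F) = fun F => fderiv ℝ W F + Dn η F := by
    funext G
    exact ((hW.differentiable (by norm_num) G).hasFDerivAt.add (hasFDerivAt_nn η G)).fderiv
  have hP1 : ContDiff ℝ 1 (fderiv ℝ W) := hW.fderiv_right (by norm_num)
  have h2 : fderiv ℝ (fun F => fderiv ℝ W F + Dn η F) F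
      = fderiv ℝ (fderiv ℝ W) F + Dn η :=
    ((hP1.differentiable (by norm_num) F).hasFDerivAt.add (Dn η).hasFDerivAt).fderiv
  rw [h1, h2]
  show fderiv ℝ (fderiv ℝ W) F X X + Dn η X X = _
  rw [Dn_apply]
  unfold nn
  ring

theorem cr0 (hPrim : S_PRIM) (hFlow : S_FLOW1) (hLim : S_LIMQ) : S_CR0 := by
  intro W c hW hc hcrit
  refine hLim W hW.continuous fun R ε hR hε => ?_
  obtain ⟨η, hη⟩ : ∃ η : ℝ, η = ε / (4 * R ^ 2 + 1) := ⟨_, rfl⟩
  have hη0 : 0 < η := by rw [hη]; positivity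
  obtain ⟨c', hc', hcc, -⟩ := hc.exists_contDiff_approx 1 (ε := fun _ => η) continuous_const
    (fun _ => hη0)
  obtain ⟨θ, hθ, hθ2⟩ := hPrim c' hc'
  have hW' : ContDiff ℝ 2 (fun F : E => W F + η * nn F) := hW.add (nn_smooth η)
  have hq : QCtrig (fun F : E => W F + η * nn F) := by
    refine hFlow _ θ hW' hθ fun F X => ?_
    rw [hs_add_nn hW, hθ2]
    have h1 := hcrit F X
    have h2 := hcc (fun r => F r 0)
    rw [Real.dist_eq] at h2
    obtain ⟨D, hD⟩ : ∃ D : ℝ, D = X 0 0 * X 1 1 - X 0 1 * X 1 0 := ⟨_, rfl⟩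
    have h3 : wd (fun r => X r 0) (fun r => X r 1) = D := by
      unfold wd
      rw [hD]
      ring
    have h4 : |D| ≤ nn X / 2 := by
      rw [hD, abs_le]
      unfold nn
      constructor
      · nlinarith [sq_nonneg (X 0 0 + X 1 1), sq_nonneg (X 0 1 - X 1 0)]
      · nlinarith [sq_nonneg (X 0 0 - X 1 1), sq_nonneg (X 0 1 + X 1 0)]
    have hnn : 0 ≤ nn X := by
      unfold nn
      positivity
    have h5 : |(c' (fun r => F r 0) - c (fun r => F r 0)) * D| ≤ η * (nn X / 2) := by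
      rw [abs_mul]
      exact mul_le_mul h2.le h4 (abs_nonneg _) hη0.le
    have h6 := (abs_le.1 h5).1
    rw [h3]
    rw [← hD] at h1
    have h7 : 0 ≤ η * nn X := by positivity
    have h8 : c' (fun r => F r 0) * D = c (fun r => F r 0) * D
        + (c' (fun r => F r 0) - c (fun r => F r 0)) * D := by ring
    rw [h8]
    linarith
  refine ⟨fun F => W F + η * nn F, hW'.continuous, ?_, ?_⟩
  · intro F₀ Ω hΩ hb ϑ hK h0
    obtain ⟨K, hK⟩ := hK
    have h1 := qc_of_trig hW'.continuous hq F₀ hΩ hb hK h0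
    have e : ∀ x, (gr ϑ x : Matrix (Fin 2) (Fin 2) ℝ) = LinearMap.toMatrix'
          ((fderiv ℝ ϑ x : (Fin 2 → ℝ) →L[ℝ] (Fin 2 → ℝ)) :
            (Fin 2 → ℝ) →ₗ[ℝ] (Fin 2 → ℝ)) := by
      intro x
      ext r l
      rw [LinearMap.toMatrix'_apply]
      rfl
    simp_rw [← e]
    exact h1
  · intro F hF
    have h1 : nn F ≤ 4 * R ^ 2 := by
      have h2 : ∀ i j, F i j ^ 2 ≤ R ^ 2 := fun i j =>
        sq_le_sq' (abs_le.1 (hF i j)).1 (abs_le.1 (hF i j)).2
      unfold nn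
      linarith [h2 0 0, h2 0 1, h2 1 0, h2 1 1]
    have hnn : 0 ≤ nn F := by
      unfold nn
      positivity
    have e : W F - (W F + η * nn F) = -(η * nn F) := by ring
    show |W F - (W F + η * nn F)| ≤ ε
    rw [e, abs_neg, abs_of_nonneg (by positivity), hη, div_mul_eq_mul_div,
      div_le_iff₀ (by positivity)]
    nlinarith

end Pool.Agent.Q175.MD
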