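import Pool.Agent.Q82.MD.Stm2

/-! MD-19: the flow `u_t = ∂₀∂₀ u` (helper175 for project MD of helper82). -/

set_option autoImplicit false

open MeasureTheory Set Filter Topology
open Pool.Agent.W779.Morrey

namespace Pool.Agent.Q175.MD

open Pool.Agent.Q82.MD

/-- the first column -/
noncomputable def c0 : E →L[ℝ] V :=
  ContinuousLinearMap.pi fun r => (ContinuousLinearMap.proj (R := ℝ) (φ := fun _ : Fin 2 => ℝ)
    0).comp (ContinuousLinearMap.proj (R := ℝ) (φ := fun _ : Fin 2 => V) r)

lemma c0_apply (F : E) : c0 F = fun r => F r 0 := rfl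

lemma c0_mk' (G : Fin 2 → E) : c0.comp (mk' G) = mk' fun j => c0 (G j) := by
  ext v
  simp [mk', Fin.sum_univ_two]

theorem dissipation1 {W : E → ℝ} {θ : V → V →L[ℝ] ℝ} (hW : ContDiff ℝ 2 W)
    (hθ : ContDiff ℝ 1 θ) (F : V → E) (G : Fin 2 → V → E)
    (G2 : Fin 2 → Fin 2 → V → E)
    (hF : ∀ x, HasFDerivAt F (mk' fun j => G j x) x)
    (hG : ∀ j x, HasFDerivAt (G j) (mk' fun l => G2 j l x) x)
    (hG2 : ∀ j l, Continuous (G2 j l)) (hsymm : ∀ x, G2 0 1 x = G2 1 0 x)
    (hpF : ∀ i x, F (x + Pi.single i 1) = F x)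
    (hpG : ∀ j i x, G j (x + Pi.single i 1) = G j x) :
    ∫ x in Icc (0 : V) 1,
      ((fderiv ℝ (fderiv ℝ W) (F x) (G 0 x) (G 0 x)
      + (fderiv ℝ θ (c0 (F x)) (c0 (G 0 x)) (c0 (G 1 x))
        - fderiv ℝ θ (c0 (F x)) (c0 (G 1 x)) (c0 (G 0 x))))
      + fderiv ℝ W (F x) (G2 0 0 x)) = 0 := by
  have hFc : Continuous F := continuous_iff_continuousAt.2 fun x => (hF x).continuousAt
  have hGc : ∀ j, Continuous (G j) := fun j =>
    continuous_iff_continuousAt.2 fun x => (hG j x).continuousAt
  have hP1 : ContDiff ℝ 1 (fderiv ℝ W) := hW.fderiv_right (by norm_num)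
  have hPd : ∀ y, HasFDerivAt (fderiv ℝ W) (fderiv ℝ (fderiv ℝ W) y) y := fun y =>
    (hP1.differentiable (by norm_num) y).hasFDerivAt
  have hθd : ∀ y, HasFDerivAt θ (fderiv ℝ θ y) y := fun y =>
    (hθ.differentiable (by norm_num) y).hasFDerivAt
  have hHc : Continuous (fderiv ℝ (fderiv ℝ W)) := hP1.continuous_fderiv (by norm_num)
  have hΘc : Continuous (fderiv ℝ θ) := hθ.continuous_fderiv (by norm_num)
  set P := fderiv ℝ W with hPdef
  set H := fderiv ℝ P with hHdef
  set Θ := fderiv ℝ θ with hΘdef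
  have hg : ∀ x, HasFDerivAt (fun x => c0 (F x)) (mk' fun j => c0 (G j x)) x := fun x => by
    rw [← c0_mk']
    exact c0.hasFDerivAt.comp x (hF x)
  have hgj : ∀ j x, HasFDerivAt (fun x => c0 (G j x)) (mk' fun l => c0 (G2 j l x)) x :=
    fun j x => by
      rw [← c0_mk']
      exact c0.hasFDerivAt.comp x (hG j x)
  have d1 : ∀ j x, HasFDerivAt (fun x => P (F x) (G j x))
      ((P (F x)).comp (mk' fun l => G2 j l x) + ((H (F x)).comp (mk' fun j => G j x)).flip (G j x))
      x := fun j x => ((hPd (F x)).comp x (hF x)).clm_apply (hG j x)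
  have d2 : ∀ j x, HasFDerivAt (fun x => θ (c0 (F x)) (c0 (G j x)))
      ((θ (c0 (F x))).comp (mk' fun l => c0 (G2 j l x))
        + ((Θ (c0 (F x))).comp (mk' fun j => c0 (G j x))).flip (c0 (G j x)))
      x := fun j x => ((hθd (c0 (F x))).comp x (hg x)).clm_apply (hgj j x)
  have c1 : ∀ j, Continuous (fun x => (P (F x)).comp (mk' fun l => G2 j l x)
      + ((H (F x)).comp (mk' fun j => G j x)).flip (G j x)) := by
    intro j
    have a1 := continuous_mk' (G2 j) (hG2 j)
    have a2 := continuous_mk' G hGc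
    have a3 : Continuous (fun x => P (F x)) := hP1.continuous.comp hFc
    have a4 : Continuous (fun x => H (F x)) := hHc.comp hFc
    refine (a3.clm_comp a1).add ?_
    have a5 := a4.clm_comp a2
    have a6 : Continuous (fun x => ((H (F x)).comp (mk' fun j => G j x)).flip) :=
      (ContinuousLinearMap.flipₗᵢ ℝ V E ℝ).continuous.comp a5
    exact a6.clm_apply (hGc j)
  have hgc : Continuous fun x => c0 (F x) := c0.continuous.comp hFc
  have c2 : ∀ j, Continuous (fun x => (θ (c0 (F x))).comp (mk' fun l => c0 (G2 j l x))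
      + ((Θ (c0 (F x))).comp (mk' fun j => c0 (G j x))).flip (c0 (G j x))) := by
    intro j
    have a1 := continuous_mk' (fun l x => c0 (G2 j l x)) (fun l => c0.continuous.comp (hG2 j l))
    have a2 := continuous_mk' (fun j x => c0 (G j x)) (fun j => c0.continuous.comp (hGc j))
    have a3 : Continuous (fun x => θ (c0 (F x))) := hθ.continuous.comp hgc
    have a4 : Continuous (fun x => Θ (c0 (F x))) := hΘc.comp hgc
    refine (a3.clm_comp a1).add ?_
    have a5 := a4.clm_comp a2
    have a6 : Continuous (fun x => ((Θ (c0 (F x))).comp (mk' fun j => c0 (G j x))).flip) :=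
      (ContinuousLinearMap.flipₗᵢ ℝ V V ℝ).continuous.comp a5
    exact a6.clm_apply (c0.continuous.comp (hGc j))
  have key := integral_div_periodic
    (![fun x => P (F x) (G 0 x) + θ (c0 (F x)) (c0 (G 1 x)),
      fun x => -(θ (c0 (F x)) (c0 (G 0 x)))])
    (![fun x => ((P (F x)).comp (mk' fun l => G2 0 l x)
        + ((H (F x)).comp (mk' fun j => G j x)).flip (G 0 x))
        + ((θ (c0 (F x))).comp (mk' fun l => c0 (G2 1 l x))
        + ((Θ (c0 (F x))).comp (mk' fun j => c0 (G j x))).flip (c0 (G 1 x))),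
      fun x => -((θ (c0 (F x))).comp (mk' fun l => c0 (G2 0 l x))
        + ((Θ (c0 (F x))).comp (mk' fun j => c0 (G j x))).flip (c0 (G 0 x)))])
    (by
      intro i x
      fin_cases i
      · exact (d1 0 x).add (d2 1 x)
      · exact (d2 0 x).neg)
    (by
      intro i
      fin_cases i
      · exact (c1 0).add (c2 1)
      · exact (c2 0).neg)
    (by
      intro i x _
      fin_cases i
      · simp [hpF, hpG]
      · simp [hpF, hpG])
  rw [← key]
  refine integral_congr_ae (Eventually.of_forall fun x => ?_)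
  simp only [Fin.sum_univ_two, Matrix.cons_val_zero, Matrix.cons_val_one,
    _root_.add_apply, _root_.neg_apply, ContinuousLinearMap.comp_apply,
    ContinuousLinearMap.flip_apply, mk'_single, hsymm x]
  ring

/-- the square of the first frequency -/
def n0 (k : Fin 2 → ℤ) : ℕ := (k 0 ^ 2).toNat

theorem n0_cast (k : Fin 2 → ℤ) : (n0 k : ℝ) = (k 0 : ℝ) ^ 2 := by
  have h : ((n0 k : ℤ)) = k 0 ^ 2 := by
    unfold n0
    exact Int.toNat_of_nonneg (by positivity)
  have h2 : (((n0 k : ℤ)) : ℝ) = ((k 0 ^ 2 : ℤ) : ℝ) := by rw [h]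
  push_cast at h2
  exact h2

section fam

variable {ι : Type*} [Fintype ι]

noncomputable def Fm (k : ι → Fin 2 → ℤ) (A B : ι → E) (s : ℝ) (x : V) : E :=
  ∑ i, s ^ n0 (k i) • tm (k i) (A i) (B i) x

theorem Fm_one (k : ι → Fin 2 → ℤ) (A B : ι → E) (x : V) : Fm k A B 1 x = Fam k A B 1 x := by
  unfold Fm Fam
  simp

theorem Fm_periodic (k : ι → Fin 2 → ℤ) (A B : ι → E) (s : ℝ) (x : V) (j : Fin 2) :
    Fm k A B s (x + Pi.single j 1) = Fm k A B s x := by
  unfold Fm
  simp only [tm_periodic]

theorem hasFDerivAt_Fm (k : ι → Fin 2 → ℤ) (A B : ι → E) (s : ℝ) (x : V) :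
    HasFDerivAt (Fm k A B s) (mk' fun j => Fm k (dA k B j) (dB k A j) s x) x := by
  have h := HasFDerivAt.fun_sum (u := Finset.univ)
    (fun (i : ι) _ => (hasFDerivAt_tm (k i) (A i) (B i) x).const_smul (s ^ n0 (k i)))
  refine h.congr_fderiv ?_
  ext v r l
  simp only [mk', Fm, dA, dB, Fin.sum_univ_two, _root_.sum_apply,
    FunLike.coe_smul, _root_.add_apply, Pi.smul_apply,
    ContinuousLinearMap.smulRight_apply, ContinuousLinearMap.proj_apply, Finset.sum_apply,
    Pi.add_apply, smul_eq_mul, Finset.mul_sum, ← Finset.sum_add_distrib]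
  refine Finset.sum_congr rfl fun i _ => ?_
  ring

theorem continuous_Fm (k : ι → Fin 2 → ℤ) (A B : ι → E) (s : ℝ) : Continuous (Fm k A B s) :=
  continuous_iff_continuousAt.2 fun x => (hasFDerivAt_Fm k A B s x).continuousAt

theorem continuous_Fm_prod (k : ι → Fin 2 → ℤ) (A B : ι → E) :
    Continuous (fun p : ℝ × V => Fm k A B p.1 p.2) := by
  unfold Fm
  refine continuous_finsetSum _ fun i _ => ?_
  exact (continuous_fst.pow _).smul ((continuous_tm _ _ _).comp continuous_snd)

noncomputable def dsFm (k : ι → Fin 2 → ℤ) (A B : ι → E) (s : ℝ) (x : V) : E :=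
  ∑ i, ((n0 (k i) : ℝ) * s ^ (n0 (k i) - 1)) • tm (k i) (A i) (B i) x

theorem hasDerivAt_Fm (k : ι → Fin 2 → ℤ) (A B : ι → E) (s : ℝ) (x : V) :
    HasDerivAt (fun s => Fm k A B s x) (dsFm k A B s x) s := by
  unfold Fm dsFm
  refine HasDerivAt.fun_sum fun i _ => ?_
  exact (hasDerivAt_pow _ s).smul_const _

theorem continuous_dsFm_prod (k : ι → Fin 2 → ℤ) (A B : ι → E) :
    Continuous (fun p : ℝ × V => dsFm k A B p.1 p.2) := by
  unfold dsFm
  refine continuous_finsetSum _ fun i _ => ?_
  exact (continuous_const.mul (continuous_fst.pow _)).smul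
    ((continuous_tm _ _ _).comp continuous_snd)

theorem heat1 (k : ι → Fin 2 → ℤ) (A B : ι → E) (s : ℝ) (x : V) :
    Fm k (dA k (dB k A 0) 0) (dB k (dA k B 0) 0) s x
      = -(4 * Real.pi ^ 2 * s) • dsFm k A B s x := by
  unfold Fm dsFm
  rw [Finset.smul_sum]
  refine Finset.sum_congr rfl fun i _ => ?_
  have h1 : s * ((n0 (k i) : ℝ) * s ^ (n0 (k i) - 1)) = (n0 (k i) : ℝ) * s ^ (n0 (k i)) := by
    rcases Nat.eq_zero_or_pos (n0 (k i)) with h | h
    · simp [h]
    · obtain ⟨m, hm⟩ := Nat.exists_eq_succ_of_ne_zero h.ne'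
      rw [hm]
      simp only [Nat.succ_eq_add_one, Nat.add_sub_cancel, pow_succ]
      ring
  have h2 : -(4 * Real.pi ^ 2 * s) * ((n0 (k i) : ℝ) * s ^ (n0 (k i) - 1))
      = -(4 * Real.pi ^ 2) * ((k i 0 : ℝ) ^ 2) * s ^ (n0 (k i)) := by
    rw [← n0_cast]
    linear_combination -(4 * Real.pi ^ 2) * h1
  rw [smul_smul, h2]
  ext r l
  simp only [tm, dA, dB, Pi.add_apply, Pi.smul_apply, Pi.neg_apply, smul_eq_mul]
  ring

/-- `W` is above its tangent in the directions with vanishing first column. -/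
theorem tangent {W : E → ℝ} {θ : V → V →L[ℝ] ℝ} (hW : ContDiff ℝ 2 W)
    (hcert : ∀ F X : E, 0 ≤ hs W F X X + ed θ (fun r => F r 0) (fun r => X r 0)
      (fun r => X r 1)) (F₀ X : E) (hX : ∀ r, X r 0 = 0) :
    W F₀ + fderiv ℝ W F₀ X ≤ W (F₀ + X) := by
  have hP1 : ContDiff ℝ 1 (fderiv ℝ W) := hW.fderiv_right (by norm_num)
  have hl : ∀ t : ℝ, HasDerivAt (fun t : ℝ => F₀ + t • X) X t := fun t => by
    simpa using ((hasDerivAt_id t).smul_const X).const_add F₀
  have hd1 : ∀ t, HasDerivAt (fun t : ℝ => W (F₀ + t • X)) (fderiv ℝ W (F₀ + t • X) X) t :=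
    fun t => ((hW.differentiable (by norm_num) _).hasFDerivAt).comp_hasDerivAt t (hl t)
  have hd2 : ∀ t, HasDerivAt (fun t : ℝ => fderiv ℝ W (F₀ + t • X) X)
      (fderiv ℝ (fderiv ℝ W) (F₀ + t • X) X X) t := fun t => by
    have h1 := ((hP1.differentiable (by norm_num) (F₀ + t • X)).hasFDerivAt).comp_hasDerivAt t
      (hl t)
    have h2 := h1.clm_apply (hasDerivAt_const t X)
    refine h2.congr_deriv ?_
    simp
  have hnn : ∀ F : E, 0 ≤ fderiv ℝ (fderiv ℝ W) F X X := by
    intro F
    have h := hcert F X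
    have e : (fun r => X r 0) = (0 : V) := funext hX
    rw [e] at h
    unfold hs ed at h
    simpa using h
  -- the derivative is monotone
  have hmono : MonotoneOn (fun t : ℝ => fderiv ℝ W (F₀ + t • X) X) (Icc 0 1) := by
    refine monotoneOn_of_hasDerivWithinAt_nonneg (convex_Icc 0 1)
      (fun t _ => (hd2 t).continuousAt.continuousWithinAt)
      (f' := fun t => fderiv ℝ (fderiv ℝ W) (F₀ + t • X) X X)
      (fun t _ => (hd2 t).hasDerivWithinAt) (fun t _ => hnn _)
  obtain ⟨t, ht, h⟩ := exists_hasDerivAt_eq_slope (fun t : ℝ => W (F₀ + t • X))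
    (fun t => fderiv ℝ W (F₀ + t • X) X) zero_lt_one
    (fun t _ => (hd1 t).continuousAt.continuousWithinAt) (fun t _ => hd1 t)
  have h3 := hmono (show (0 : ℝ) ∈ Icc 0 1 by simp) (Ioo_subset_Icc_self ht) ht.1.le
  simp only [one_smul, zero_smul, add_zero, sub_zero, div_one] at h h3
  linarith

theorem flow1 : S_FLOW1 := by
  intro W θ hW hθ hcert ι _ F₀ k c d
  set A := grk k c with hA
  set B := grk k d with hB
  have hP1 : ContDiff ℝ 1 (fderiv ℝ W) := hW.fderiv_right (by norm_num)
  have hPc : Continuous (fderiv ℝ W) := hP1.continuous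
  have hd : ∀ x s, HasDerivAt (fun s => W (F₀ + Fm k A B s x))
      (fderiv ℝ W (F₀ + Fm k A B s x) (dsFm k A B s x)) s := by
    intro x s
    have h1 : HasFDerivAt W (fderiv ℝ W (F₀ + Fm k A B s x)) (F₀ + Fm k A B s x) :=
      (hW.differentiable (by norm_num) _).hasFDerivAt
    exact h1.comp_hasDerivAt s ((hasDerivAt_Fm k A B s x).const_add F₀)
  have hcont : Continuous (fun p : ℝ × V =>
      fderiv ℝ W (F₀ + Fm k A B p.1 p.2) (dsFm k A B p.1 p.2)) :=
    (hPc.comp (continuous_const.add (continuous_Fm_prod k A B))).clm_apply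
      (continuous_dsFm_prod k A B)
  have hftc : ∀ x, ∫ s in (0:ℝ)..1, fderiv ℝ W (F₀ + Fm k A B s x) (dsFm k A B s x)
      = W (F₀ + Fm k A B 1 x) - W (F₀ + Fm k A B 0 x) := by
    intro x
    rw [intervalIntegral.integral_eq_sub_of_hasDerivAt (fun s _ => hd x s)]
    refine Continuous.intervalIntegrable ?_ _ _
    exact hcont.comp (continuous_id.prodMk continuous_const)
  have hint : Integrable (Function.uncurry fun (s : ℝ) (x : V) =>
      fderiv ℝ W (F₀ + Fm k A B s x) (dsFm k A B s x))
      ((volume.restrict (Set.uIoc (0:ℝ) 1)).prod (volume.restrict (Icc (0 : V) 1))) := by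
    rw [Measure.prod_restrict]
    have h1 : IntegrableOn (Function.uncurry fun (s : ℝ) (x : V) =>
      fderiv ℝ W (F₀ + Fm k A B s x) (dsFm k A B s x)) (Icc (0:ℝ) 1 ×ˢ Icc (0:V) 1)
      (volume.prod volume) := by
      refine ContinuousOn.integrableOn_compact (isCompact_Icc.prod isCompact_Icc) ?_
      exact hcont.continuousOn
    refine h1.mono_set (Set.prod_mono ?_ le_rfl)
    rw [uIoc_of_le zero_le_one]
    exact Ioc_subset_Icc_self
  have hswap := intervalIntegral_integral_swap hint
  have hpos : 0 ≤ ∫ s in (0:ℝ)..1, ∫ x in Icc (0:V) 1,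
      fderiv ℝ W (F₀ + Fm k A B s x) (dsFm k A B s x) := by
    refine intervalIntegral.integral_nonneg_of_ae_restrict zero_le_one ?_
    rw [EventuallyLE, ae_restrict_iff' measurableSet_Icc]
    filter_upwards [Measure.ae_ne volume (0:ℝ)] with s hs0 hs
    have hs1 : 0 < s := lt_of_le_of_ne hs.1 (Ne.symm hs0)
    have hdis := dissipation1 hW hθ (fun x => F₀ + Fm k A B s x)
      (fun j => Fm k (dA k B j) (dB k A j) s)
      (fun j l => Fm k (dA k (dB k A j) l) (dB k (dA k B j) l) s)
      (fun x => (hasFDerivAt_Fm k A B s x).const_add F₀)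
      (fun j x => hasFDerivAt_Fm k _ _ s x)
      (fun j l => continuous_Fm k _ _ s)
      (fun x => by
        have e1 : dA k (dB k A 0) 1 = dA k (dB k A 1) 0 := by
          funext i
          simp only [dA, dB, smul_neg, smul_smul]
          ring_nf
        have e2 : dB k (dA k B 0) 1 = dB k (dA k B 1) 0 := by
          funext i
          simp only [dA, dB, smul_smul]
          ring_nf
        rw [e1, e2])
      (fun i x => by rw [Fm_periodic])
      (fun j i x => by rw [Fm_periodic])
    have hHc : Continuous (fderiv ℝ (fderiv ℝ W)) := hP1.continuous_fderiv (by norm_num)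
    have hΘc : Continuous (fderiv ℝ θ) := hθ.continuous_fderiv (by norm_num)
    have hFc : Continuous (fun x => F₀ + Fm k A B s x) :=
      continuous_const.add (continuous_Fm k A B s)
    have hGc : ∀ j, Continuous (Fm k (dA k B j) (dB k A j) s) := fun j => continuous_Fm k _ _ s
    have hG2c : ∀ j l, Continuous (Fm k (dA k (dB k A j) l) (dB k (dA k B j) l) s) :=
      fun j l => continuous_Fm k _ _ s
    have hgc : Continuous (fun x => c0 (F₀ + Fm k A B s x)) := c0.continuous.comp hFc
    have hgjc : ∀ j, Continuous (fun x => c0 (Fm k (dA k B j) (dB k A j) s x)) := fun j =>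
      c0.continuous.comp (hGc j)
    have hpc : Continuous (fun x => fderiv ℝ W (F₀ + Fm k A B s x) (dsFm k A B s x)) :=
      hcont.comp (continuous_const.prodMk continuous_id)
    have hpos2 : 0 < 4 * Real.pi ^ 2 * s := by positivity
    have hle : ∫ x in Icc (0:V) 1, -(4 * Real.pi ^ 2 * s)
        * fderiv ℝ W (F₀ + Fm k A B s x) (dsFm k A B s x) ≤ 0 := by
      refine (integral_mono ?_ ?_ fun x => ?_).trans hdis.le
      · exact (continuous_const.mul hpc).integrableOn_Icc
      · refine Continuous.integrableOn_Icc ?_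
        refine Continuous.add (Continuous.add ?_ (Continuous.sub ?_ ?_)) ?_
        · exact ((hHc.comp hFc).clm_apply (hGc 0)).clm_apply (hGc 0)
        · exact ((hΘc.comp hgc).clm_apply (hgjc 0)).clm_apply (hgjc 1)
        · exact ((hΘc.comp hgc).clm_apply (hgjc 1)).clm_apply (hgjc 0)
        · exact (hPc.comp hFc).clm_apply (hG2c 0 0)
      · have hc := hcert (F₀ + Fm k A B s x) (Fm k (dA k B 0) (dB k A 0) s x)
        have e1 : (fun r => Fm k (dA k B 0) (dB k A 0) s x r 1)
            = c0 (Fm k (dA k B 1) (dB k A 1) s x) := by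
          funext r
          simp only [c0_apply, Fm, Finset.sum_apply, Pi.smul_apply, tm, dA, dB, Pi.add_apply,
            Pi.neg_apply, smul_eq_mul, hA, hB, grk]
          refine Finset.sum_congr rfl fun i _ => ?_
          ring
        rw [e1] at hc
        unfold Pool.Agent.Q82.MD.hs ed at hc
        have e2 : (fun r => (F₀ + Fm k A B s x) r 0) = c0 (F₀ + Fm k A B s x) := rfl
        have e3 : (fun r => Fm k (dA k B 0) (dB k A 0) s x r 0)
          = c0 (Fm k (dA k B 0) (dB k A 0) s x) := rfl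
        rw [e2, e3] at hc
        have hh := heat1 k A B s x
        simp only at hh ⊢
        rw [hh, map_smul, smul_eq_mul]
        linarith
    rw [integral_const_mul] at hle
    simp only [Pi.zero_apply]
    by_contra hneg
    push Not at hneg
    have := mul_pos_of_neg_of_neg (neg_lt_zero.2 hpos2) hneg
    linarith
  have i1 : IntegrableOn (fun x => W (F₀ + Fm k A B 1 x)) (Icc (0 : V) 1) :=
    (hW.continuous.comp (continuous_const.add (continuous_Fm k A B 1))).integrableOn_Icc
  have i0 : IntegrableOn (fun x => W (F₀ + Fm k A B 0 x)) (Icc (0 : V) 1) :=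
    (hW.continuous.comp (continuous_const.add (continuous_Fm k A B 0))).integrableOn_Icc
  have hfin : ∫ x in Icc (0 : V) 1, (W (F₀ + Fm k A B 1 x) - W (F₀ + Fm k A B 0 x))
      = (∫ x in Icc (0 : V) 1, W (F₀ + Fm k A B 1 x))
        - ∫ x in Icc (0 : V) 1, W (F₀ + Fm k A B 0 x) := integral_sub i1 i0
  have hfin2 : ∫ x in Icc (0 : V) 1, (W (F₀ + Fm k A B 1 x) - W (F₀ + Fm k A B 0 x))
      = ∫ s in (0:ℝ)..1, ∫ x in Icc (0:V) 1,
      fderiv ℝ W (F₀ + Fm k A B s x) (dsFm k A B s x) := by
    rw [hswap]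
    exact integral_congr_ae (Eventually.of_forall fun x => (hftc x).symm)
  -- the end of the flow
  have hz : ∀ x r, Fm k A B 0 x r 0 = 0 := by
    intro x r
    simp only [Fm, Finset.sum_apply, Pi.smul_apply, smul_eq_mul, tm, Pi.add_apply, hA, hB, grk]
    refine Finset.sum_eq_zero fun i _ => ?_
    rcases Nat.eq_zero_or_pos (n0 (k i)) with h | h
    · have h1 := n0_cast (k i)
      rw [h] at h1
      have h2 : (k i 0 : ℝ) = 0 := by
        have : (k i 0 : ℝ) ^ 2 = 0 := by rw [← h1]; simp
        exact pow_eq_zero_iff (two_ne_zero) |>.1 this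
      rw [h2]
      ring
    · rw [zero_pow h.ne']
      ring
  have hlin : ∫ x in Icc (0 : V) 1, fderiv ℝ W F₀ (Fm k A B 0 x) = 0 := by
    have e : ∀ x, fderiv ℝ W F₀ (Fm k A B 0 x) = ∑ i, (0 : ℝ) ^ n0 (k i)
        * (Real.cos (ph (k i) x) * fderiv ℝ W F₀ (A i)
          + Real.sin (ph (k i) x) * fderiv ℝ W F₀ (B i)) := by
      intro x
      unfold Fm tm
      rw [map_sum]
      refine Finset.sum_congr rfl fun i _ => ?_
      rw [map_smul, map_add, map_smul, map_smul, smul_eq_mul, smul_eq_mul, smul_eq_mul]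
    simp_rw [e]
    have hphc : ∀ i, Continuous (ph (k i)) := fun i =>
      continuous_iff_continuousAt.2 fun x => (hasFDerivAt_ph (k i) x).continuousAt
    rw [integral_finsetSum]
    · refine Finset.sum_eq_zero fun i _ => ?_
      rw [integral_const_mul, integral_add, integral_mul_const, integral_mul_const]
      · by_cases hk : k i = 0
        · have hA0 : A i = 0 := by
            ext r l
            simp [hA, grk, hk]
          have hB0 : B i = 0 := by
            ext r l
            simp [hB, grk, hk]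
          rw [hA0, hB0]
          simp
        · obtain ⟨h1, h2⟩ := integral_cos_sin hk
          rw [h1, h2]
          ring
      · exact ((Real.continuous_cos.comp (hphc i)).mul continuous_const).integrableOn_Icc
      · exact ((Real.continuous_sin.comp (hphc i)).mul continuous_const).integrableOn_Icc
    · intro i _
      exact (continuous_const.mul (((Real.continuous_cos.comp (hphc i)).mul
        continuous_const).add ((Real.continuous_sin.comp (hphc i)).mul
        continuous_const))).integrableOn_Icc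
  have hend : W F₀ ≤ ∫ x in Icc (0 : V) 1, W (F₀ + Fm k A B 0 x) := by
    have i2 : IntegrableOn (fun x => fderiv ℝ W F₀ (Fm k A B 0 x)) (Icc (0 : V) 1) :=
      ((fderiv ℝ W F₀).continuous.comp (continuous_Fm k A B 0)).integrableOn_Icc
    have i3 : IntegrableOn (fun _ : V => W F₀) (Icc (0 : V) 1) :=
      continuous_const.integrableOn_Icc
    have h1 : ∫ x in Icc (0 : V) 1, (W F₀ + fderiv ℝ W F₀ (Fm k A B 0 x))
        ≤ ∫ x in Icc (0 : V) 1, W (F₀ + Fm k A B 0 x) :=
      integral_mono (i3.add i2) i0 fun x => tangent hW hcert F₀ _ (hz x)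
    rw [integral_add i3 i2, hlin, add_zero] at h1
    simpa [Measure.real] using h1
  have hone : ∀ x, Fm k A B 1 x = Fam k A B 1 x := Fm_one k A B
  simp only [← hone]
  linarith

end fam

end Pool.Agent.Q175.MD
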